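import Pool.Agent.H28.MCL.Targets
import Pool.Agent.H24.T2.Final

/-!
Row TLL of the project MCL on `MP_c59857_nt`.
-/

set_option autoImplicit false

open Finset Filter Topology

namespace Pool.Agent.H24.MCL

open Pool.Agent.H24.MR (lam FinAddInv)
open Pool.Agent.H24.T2
open Pool.Agent.H27.T2
open Pool.Agent.H28.MCL

lemma Lv_mono {f : ℕ → ℝ} {Q c : ℕ} {δ θ ζ ζ' : ℝ} {x y : ℕ} {τ : ℕ → ℤ} (hζ : ζ ≤ ζ')
    (hl : 0 ≤ Real.log ((y : ℝ) / x)) (h : Lv f Q c δ θ ζ x y τ) : Lv f Q c δ θ ζ' x y τ := by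
  obtain ⟨h1, h2, h3, h4⟩ := h
  exact ⟨h1, h2.trans (mul_le_mul_of_nonneg_right hζ hl), h3, h4⟩

lemma log_nonneg_of {K x y : ℕ} (hx : 0 < x) (hK : 1 ≤ K) (h : K * x ≤ y) :
    0 ≤ Real.log ((y : ℝ) / x) := by
  apply Real.log_nonneg
  have hxR : (0 : ℝ) < x := by exact_mod_cast hx
  rw [le_div_iff₀ hxR, one_mul]
  have : x ≤ y := (Nat.le_mul_of_pos_left x hK).trans h
  exact_mod_cast this

lemma sum_ind {P : ℕ → Prop} [DecidablePred P] (x y : ℕ) :
    ∑ n ∈ Icc x y, ind P n / n = ∑ n ∈ (Icc x y).filter P, (1 : ℝ) / n := by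
  rw [Finset.sum_filter]
  apply Finset.sum_congr rfl
  intro n _
  unfold ind
  split_ifs with h <;> simp

/-- the contradiction from the glued sign function -/
lemma finalB (hL : T_LDB) (hM : T_LDM) {k : ℕ} {δ η : ℝ} (hδ : 0 < δ) (hη : 0 < η)
    (hloc : LocP k (δ / 8) η) (β : Fin k → ℕ) {Q c : ℕ} (hQ : 0 < Q) (hQe : Even Q)
    (hβ : Function.Injective β) (x y : ℕ → ℕ) (τ : ℕ → ℤ) (hx : ∀ j, 0 < x j)
    (hxy : Tendsto (fun j => Real.log ((y j : ℝ) / x j)) atTop atTop)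
    (hτ : ∀ m, τ m = 0 ∨ τ m = 1 ∨ τ m = -1)
    (hLv : ∀ ζ : ℝ, 0 < ζ → ∀ᶠ j in atTop, Lv (fun y => ∏ i, lam (y + β i)) Q c (δ / 2 - ζ)
      (η / 2 / Q + ζ) ζ (x j) (y j) τ) : False := by
  classical
  have hQR : (0 : ℝ) < Q := by exact_mod_cast hQ
  have hU : (hyperfilter ℕ : Filter ℕ) ≤ atTop := Nat.hyperfilter_le_atTop
  have hAw : Aw (hyperfilter ℕ) x y := ⟨hx, hxy.mono_left hU⟩
  obtain ⟨hF, hmul, hdiv, hup, hlow⟩ := hL (hyperfilter ℕ) x y hAw
  have hMR := hM (hyperfilter ℕ) x y hAw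
  set μ := ldB (hyperfilter ℕ) x y with hμ
  have hrel : ∀ p u : ℕ, p.Prime → 0 < u →
      rel β lam p (p * u) = (-1) ^ k * ∏ j, lam (u + β j) := by
    intro p u hp hu
    unfold rel
    have e1 : ∀ j : Fin k, lam (p * u + p * β j) = (-1) * lam (u + β j) := by
      intro j
      rw [← mul_add, lam_prime_mul hp, neg_one_mul]
      omega
    rw [Finset.prod_congr rfl fun j _ => e1 j, Finset.prod_mul_distrib, Finset.prod_const,
      card_univ, Fintype.card_fin]
  have hm1 : μ {m | τ m ≠ τ (m + 1)} = 0 := by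
    apply le_antisymm _ (hF.nonneg _)
    apply le_of_forall_pos_le_add
    intro z hz
    rw [zero_add]
    apply hup
    refine (hLv z hz).filter_mono hU |>.mono fun j hj => ?_
    refine le_trans (le_of_eq ?_) hj.2.1
    apply Finset.sum_congr _ fun _ _ => rfl
    exact filter_aux _ _ _ _ _ fun _ => Iff.rfl
  have hm2 : δ / 8 ≤ μ {m | τ m ≠ 0} := by
    refine le_trans (by linarith : δ / 8 ≤ δ / 2 - δ / 4) ?_
    apply hlow
    refine (hLv (δ / 4) (by linarith)).filter_mono hU |>.mono fun j hj => ?_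
    refine le_trans hj.2.2.1 (le_of_eq ?_)
    apply Finset.sum_congr _ fun _ _ => rfl
    exact filter_aux _ _ _ _ _ fun _ => Iff.rfl
  have hm3 : μ {m | m ≡ c [MOD Q] ∧ τ m ≠ 0 ∧ ∏ j, lam (m + β j) ≠ (τ m : ℝ)} ≤ η / Q := by
    have e1 : η / 2 / Q + η / 2 / Q = η / Q := by
      field_simp
      norm_num
    rw [← e1]
    apply hup
    refine (hLv (η / 2 / Q) (by positivity)).filter_mono hU |>.mono fun j hj => ?_
    refine le_trans (le_of_eq ?_) hj.2.2.2
    apply Finset.sum_congr _ fun _ _ => rfl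
    exact filter_aux _ _ _ _ _ fun _ => Iff.rfl
  have hm0 : μ {0} ≤ 0 := by
    apply hup
    refine Eventually.of_forall fun j => ?_
    rw [zero_mul]
    apply le_of_eq
    apply Finset.sum_eq_zero
    intro n hn
    rw [@mem_filter _ _ (fun _ => Classical.propDecidable _), mem_Icc] at hn
    have h1 := hx j
    have h2 : n = 0 := hn.2
    omega
  set A : Set ℕ := {m | m ≡ c [MOD Q] ∧ τ m ≠ 0 ∧ ∏ j, lam (m + β j) ≠ (τ m : ℝ)} ∪ {0}
    with hA
  have hAm : μ A ≤ η / Q := by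
    refine (fai_union hF _ _).trans ?_
    linarith
  refine hloc Q c β hQ hQe hβ μ hF hMR (fun p y => (-1) ^ k * τ (y / p)) ?_ ?_ ?_ ?_
  · intro p y
    rcases hτ (y / p) with h6 | h6 | h6 <;> rcases neg_one_pow_eq_or ℤ k with h7 | h7 <;>
      simp [h6, h7]
  · intro p hp _
    apply le_antisymm _ (hF.nonneg _)
    have hsub : {y | (-1 : ℤ) ^ k * τ (y / p) ≠ (-1) ^ k * τ ((y + 1) / p)} ⊆
        {y | y / p ∈ {m | τ m ≠ τ (m + 1)}} := by
      intro y hy
      have hy' : τ (y / p) ≠ τ ((y + 1) / p) := by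
        intro heq
        apply hy
        rw [heq]
      show τ (y / p) ≠ τ (y / p + 1)
      rw [Nat.succ_div] at hy'
      split_ifs at hy' with hd
      · exact hy'
      · rw [add_zero] at hy'
        exact absurd rfl hy'
    refine (fai_mono hF hsub).trans ?_
    rw [hdiv _ _ hp.pos, hm1]
  · intro p hp _
    have heq : {y | (-1 : ℤ) ^ k * τ (y / p) ≠ 0} = {y | y / p ∈ {m | τ m ≠ 0}} := by
      ext y
      show (-1 : ℤ) ^ k * τ (y / p) ≠ 0 ↔ τ (y / p) ≠ 0
      rcases neg_one_pow_eq_or ℤ k with h7 | h7 <;> rw [h7] <;> simp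
    rw [heq, hdiv _ _ hp.pos]
    exact hm2
  · intro p hp hpW
    have hsub : {y | y ≡ c [MOD Q] ∧ p ∣ y ∧ (-1 : ℤ) ^ k * τ (y / p) ≠ 0 ∧
        rel β lam p y ≠ (((-1 : ℤ) ^ k * τ (y / p) : ℤ) : ℝ)} ⊆ {y | p ∣ y ∧ y / p ∈ A} := by
      intro y hy
      obtain ⟨hy1, ⟨u, rfl⟩, hy3, hy4⟩ := hy
      refine ⟨dvd_mul_right p u, ?_⟩
      rw [Nat.mul_div_cancel_left u hp.pos] at hy3 hy4 ⊢
      rcases Nat.eq_zero_or_pos u with hu | hu
      · right
        exact hu
      left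
      refine ⟨?_, ?_, ?_⟩
      · have h7 : p * u ≡ 1 * u [MOD Q] := Nat.ModEq.mul_right u hpW
        rw [one_mul] at h7
        exact h7.symm.trans hy1
      · intro h0
        apply hy3
        rw [h0, mul_zero]
      · intro h0
        apply hy4
        rw [hrel p u hp hu, h0]
        push_cast
        ring
    refine (fai_mono hF hsub).trans ?_
    rw [hmul _ _ hp.pos]
    have hpR : (0 : ℝ) < p := by exact_mod_cast hp.pos
    have e1 : η / ((p : ℝ) * Q) = η / Q / p := by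
      rw [div_div, mul_comm]
    rw [e1]
    exact div_le_div_of_nonneg_right hAm hpR.le

lemma lam_val (n : ℕ) : lam n = 1 ∨ lam n = -1 := by
  unfold lam
  exact neg_one_pow_eq_or ℝ _

lemma prod_pm {k : ℕ} (g : Fin k → ℝ) (hg : ∀ i, g i = 1 ∨ g i = -1) :
    ∏ i, g i = 1 ∨ ∏ i, g i = -1 := by
  apply Finset.prod_induction g (fun z => z = 1 ∨ z = -1)
  · intro a b ha hb
    rcases ha with ha | ha <;> rcases hb with hb | hb <;> rw [ha, hb] <;> norm_num
  · exact Or.inl rfl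
  · intro i _
    exact hg i

theorem tll (hL : T_LDB) (hM : T_LDM) (hK : T_BLK) (hG : T_GLU) : T_TL := by
  classical
  intro k δ hδ
  obtain ⟨η, hη, hloc⟩ := exists_eta locStatement (δ / 8) (by linarith) k
  refine ⟨η / 2, by linarith, ?_⟩
  intro k' β Q c hk hkk hQ hQe hβ
  by_contra hcon
  push Not at hcon
  have hQR : (0 : ℝ) < Q := by exact_mod_cast hQ
  have hf : ∀ n : ℕ, ∏ i, lam (n + β i) = 1 ∨ ∏ i, lam (n + β i) = -1 := fun n =>
    prod_pm _ fun i => lam_val _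
  obtain ⟨h₁, hh₁⟩ := hK (fun y => ∏ i, lam (y + β i)) (η / 2) δ Q c hf (by linarith) hδ hQ
  obtain ⟨x, y, τ, hx, hxy, hτ, hLv⟩ := hG (fun y => ∏ i, lam (y + β i)) Q c (δ / 2)
    (η / 2 / Q) (by positivity) (by
      intro i
      obtain ⟨h, hh, hB⟩ := hcon (max h₁ (3 * (i + 1)))
      obtain ⟨K, hKK⟩ := hh₁ h ((le_max_left _ _).trans hh)
      unfold Bd at hB
      push Not at hB
      obtain ⟨x, y, hx, hxy, hlt⟩ := hB (max K (max i 1))
      have hxyK : K * x ≤ y := (Nat.mul_le_mul_right x (le_max_left _ _)).trans hxy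
      have hxyi : i * x ≤ y :=
        (Nat.mul_le_mul_right x ((le_max_left _ _).trans (le_max_right _ _))).trans hxy
      have hl : 0 ≤ Real.log ((y : ℝ) / x) :=
        log_nonneg_of hx ((le_max_right _ _).trans (le_max_right _ _)) hxy
      rw [sum_ind] at hlt
      obtain ⟨τ, hτ⟩ := hKK x y hx hxyK (by
        refine lt_of_lt_of_eq hlt ?_
        apply Finset.sum_congr _ fun _ _ => rfl
        ext n
        simp only [mem_filter])
      refine ⟨x, y, τ, hx, hxyi, Lv_mono ?_ hl hτ⟩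
      have h3 : 3 * (i + 1) ≤ h := (le_max_right _ _).trans hh
      have h3' : (3 : ℝ) * (i + 1) ≤ h := by exact_mod_cast h3
      have hi : (0 : ℝ) < (i : ℝ) + 1 := by positivity
      rw [div_le_div_iff₀ (by linarith [mul_pos (by norm_num : (0:ℝ) < 3) hi]) hi]
      linarith)
  exact finalB hL hM hδ hη (hloc k' hk hkk) β hQ hQe hβ x y τ hx hxy hτ hLv

end Pool.Agent.H24.MCL
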